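import Pool.Agent.IWE.Main3

/-! # MP_88b97d_al: finite length representations of groups built from products of groups of semisimple rank at most one

`p` is a prime, `C` a finite field of characteristic `p`. `H i` (`i : Fin n`) are topological groups, each the amalgamated
product of two compact open subgroups `P i` and `Q i` over `P i ⊓ Q i`, where `P i ⊓ Q i` has an open pro-`p` subgroup
(`RankOne`; `P i = Q i = H i` is allowed, it gives the profinite groups with an open pro-`p` subgroup).
`φ : ∏ H i → G` is a continuous and open homomorphism with normal image and with kernel in `∏ (P i ⊓ Q i)`, `Z` is a central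
subgroup of `G` with `Z ⊓ im φ = 1` and `Z (im φ)` of finite index, `I` is a subgroup of `G` with
`I ⊓ Z (im φ) = φ (∏ (P i ⊓ Q i)) = I₀`, and every conjugate of `I₀` in `G` is a conjugate by an element of `im φ`.
Then every smooth representation of `G` of finite length, on which `Z` acts through a character `χ`, embeds in an admissible
representation of `G`, on which `Z` acts through `χ`, whose restriction to `I` is injective in the category of smooth
representations of `I`.
-/

namespace Pool.Agent.Results.MP_88b97d_al.FiniteLengthProducts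

open Pool.Agent.IWE

theorem result (p : ℕ) [Fact p.Prime] (C : Type) [Field C] [CharP C p] [Finite C]
    -- the amalgams `H i = P i *_{P i ⊓ Q i} Q i`
    (n : ℕ) (H : Fin n → Type) [∀ i, Group (H i)] [∀ i, TopologicalSpace (H i)]
    [∀ i, IsTopologicalGroup (H i)] (P Q : ∀ i, Subgroup (H i)) (hPQ : ∀ i, RankOne p (P i) (Q i))
    -- the group `G` and the homomorphism `φ`
    (G : Type) [Group G] [TopologicalSpace G] [IsTopologicalGroup G]
    (φ : (∀ i, H i) →* G) (hφc : Continuous φ) (hφo : IsOpenMap φ) (hφn : φ.range.Normal)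
    (hφk : φ.ker ≤ Subgroup.pi Set.univ (fun i => P i ⊓ Q i))
    -- the central subgroup `Z`
    (Z : Subgroup G) (hZ : Z ≤ Subgroup.center G) (hZφ : Z ⊓ φ.range = ⊥)
    (hfin : (Z ⊔ φ.range).FiniteIndex)
    -- the subgroup `I`
    (I : Subgroup G)
    (hI : I ⊓ (Z ⊔ φ.range) = (Subgroup.pi Set.univ (fun i => P i ⊓ Q i)).map φ)
    (hconj : ∀ g : G, ∃ y : (∀ i, H i),
      ((Subgroup.pi Set.univ (fun i => P i ⊓ Q i)).map φ).map (MulAut.conj g).toMonoidHom =
        ((Subgroup.pi Set.univ (fun i => P i ⊓ Q i)).map φ).map (MulAut.conj (φ y)).toMonoidHom)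
    -- the representation `A`
    (χ : Z →* Cˣ) (A : RR C G) (hA : A.Smooth)
    (hχ : ∀ (z : Z) (v : A.V), A.ρ z v = (χ z : C) • v) (hlen : FinLen A) :
    ∃ B : RR C G, B.Adm ∧ (∀ (z : Z) (v : B.V), B.ρ z v = (χ z : C) • v) ∧ B.InjOn I ∧
      ∃ f : A.V →ₗ[C] B.V, IsHom A B f ∧ Function.Injective f :=
  main4 P Q hPQ φ hφc hφo hφn hφk Z hZ hZφ hfin I hI hconj χ A hA hχ hlen

end Pool.Agent.Results.MP_88b97d_al.FiniteLengthProducts
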